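import Pool.Agent.Helper73.RoomSkew

set_option autoImplicit false

namespace Pool.Agent.Results.MP_b53726_co.ComplementNotSkew

open Pool.Agent.Helper73.RoomSq

/-- **Full (affirmative) answer to Q2 (a) and (b).**  There are Room squares `M 0, M 1, M 2, …` of
strictly increasing odd sides (hence pairwise non-isomorphic), each of which has a complement but
is not isomorphic to any skew Room square.  The sides are `13 ^ (4 m + 1)`; in particular the
first square has side `13`. -/
theorem result :
    ∃ (side : ℕ → ℕ) (M : (m : ℕ) → RoomArray (side m)), StrictMono side ∧ side 0 = 13 ∧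
      ∀ m, Odd (side m) ∧ IsRoomSquare (M m) ∧ HasComplement (M m) ∧ ¬ IsoToSkew (M m) := by
  refine ⟨sideOf, sq₁, ?_, ?_, fun m => ⟨?_, sq₁_isRoomSquare m, sq₁_hasComplement m,
    sq₁_not_isoToSkew m⟩⟩
  · intro a b hab
    unfold sideOf
    exact Nat.pow_lt_pow_right (by norm_num) (by omega)
  · norm_num [sideOf]
  · unfold sideOf
    exact Odd.pow (by decide)

end Pool.Agent.Results.MP_b53726_co.ComplementNotSkew
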