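import Pool.Agent.Helper73.RoomSide7Final

set_option autoImplicit false

namespace Pool.Agent.Results.MP_b53726_co.SkewNotEmbedded

open Pool.Agent.Helper73.RoomSq

/-- **Affirmative answer to Q1 (a).**  There is a Room square of side `7` which has a complement
(it is even skew) but is not isomorphic to any embedded Room square. -/
theorem result :
    ∃ M : RoomArray 7, IsRoomSquare M ∧ Standardized M ∧ Skew M ∧ HasComplement M ∧
      ¬ IsoToEmbedded M :=
  ⟨Side7.M7, Side7.M7_isRoomSquare, Side7.M7_standardized, Side7.M7_skew, Side7.M7_hasComplement,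
    Side7.M7_not_isoToEmbedded⟩

end Pool.Agent.Results.MP_b53726_co.SkewNotEmbedded
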